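import Mathlib
import Pool.Agent.Helper64.Vojta.OneSpace

/-!
Vojta's inequality for algebraic points of bounded degree, on products of projective spaces, for
arbitrarily many hyperplanes defined over the base field, in general position in each factor.

Write `N` for the number of places above `S` of the field `L` of definition of the point. The
theorem bounds `h_K(x) + ∑_{ν ∈ S} λ_D(x,ν)` by `(N/2 - 1) h_{-K}(x) + C (1 + N)` for `N ≥ 2` (by
`C` for `N ≤ 2`). So Vojta's inequality holds, with `ε = 0`,
* for all points with `N ≤ 2`, without discriminant term; in particular whenever `r · #S ≤ 2`;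
* for all points with `d_k(x) ≥ (N/2 - 1) h_{-K}(x)`.
The exceptional set depends on the divisor only, and the constant on the divisor and on the degree
bound only.
-/

namespace Pool.Agent.Results.MP_71c16a_nt.TwoPlaces

open NumberField Finset Pool.Agent.Helper64.Vojta

universe u v

section

variable (k : Type u) [Field k] [NumberField k] {L : Type v} [Field L] [NumberField L] [Algebra k L]

/-- Logarithmic height, relative to `k`, of the point of projective space with homogeneous
coordinates `x`; `Height.logHeight` is Mathlib's height relative to `L`. -/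
noncomputable def hgt {m : ℕ} (x : Fin m → L) : ℝ := Height.logHeight x / Module.finrank k L

/-- Logarithmic discriminant `d_k(L)`. -/
noncomputable def dk (k : Type u) [Field k] [NumberField k] (L : Type v) [Field L] [NumberField L]
    [Algebra k L] : ℝ :=
  Real.log |(discr L : ℝ)| / Module.finrank k L - Real.log |(discr k : ℝ)|

variable {k}

/-- The Weil function, relative to `k`, at the place `ν` of `k` of the divisor
`D = ∑_j ∑_i {D j i = 0}` on the product of the projective spaces. -/
noncomputable def lamD {ι : Type*} [Fintype ι] {n q : ι → ℕ} (D : ∀ j, Fin (q j) → Fin (n j + 1) → k)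
    (ν : Pl k) (x : ∀ j, Fin (n j + 1) → L) : ℝ :=
  (∑ w ∈ above L ν, ∑ j, ∑ i, wloc w (D j i) (x j)) / Module.finrank k L

/-- Left side of Vojta's inequality: `h_K(x) + ∑_{ν ∈ S} λ_D(x,ν)`, with
`K = - ∑_j (n_j + 1) H_j`. -/
noncomputable def lhs {ι : Type*} [Fintype ι] {n q : ι → ℕ} (D : ∀ j, Fin (q j) → Fin (n j + 1) → k)
    (S : Finset (Pl k)) (x : ∀ j, Fin (n j + 1) → L) : ℝ :=
  -(∑ j, ((n j : ℝ) + 1) * hgt k (x j)) + ∑ ν ∈ S, lamD D ν x

/-- The number of places of `L` above `S`. -/
noncomputable def npl (L : Type v) [Field L] [NumberField L] [Algebra k L] (S : Finset (Pl k)) : ℕ :=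
  ∑ ν ∈ S, (above L ν).card

end

theorem result {k : Type u} [Field k] [NumberField k] {ι : Type*} [Fintype ι] (n q : ι → ℕ)
    (D : ∀ j, Fin (q j) → Fin (n j + 1) → k) (hD : ∀ j, GenPos (D j)) :
    ∃ Z : ∀ j, Finset (Fin (n j + 1) → k), (∀ j, ∀ g ∈ Z j, g ≠ 0) ∧
      ∀ r : ℕ, ∃ C : ℝ, ∀ (L : Type v) [Field L] [NumberField L] [Algebra k L],
        Module.finrank k L ≤ r →
        ∀ (S : Finset (Pl k)) (x : ∀ j, Fin (n j + 1) → L), (∀ j, x j ≠ 0) →
        (∀ j, ∀ g ∈ Z j, ev (cst g) (x j) ≠ 0) →
        lhs D S x ≤ ∑ j, (coef (n j) (npl L S) - (n j + 1)) * hgt k (x j) + C * (1 + npl L S) ∧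
        (Module.finrank k L * S.card ≤ 2 ∨ npl L S ≤ 2 → lhs D S x ≤ C) ∧
        (Module.finrank k L * S.card ≤ 2 ∨ npl L S ≤ 2 ∨
            ((npl L S : ℝ) / 2 - 1) * ∑ j, ((n j : ℝ) + 1) * hgt k (x j) ≤ dk k L →
          ∀ (ε : ℝ) (A : ι → ℝ), 0 ≤ ε → (∀ j, 0 ≤ A j) →
            lhs D S x ≤ ε * ∑ j, A j * hgt k (x j) + dk k L + C * (1 + npl L S)) := by
  classical
  choose Z hZ0 hZ using fun j => one_space.{u, v} (D j) (hD j)
  refine ⟨Z, hZ0, ?_⟩
  intro r
  choose C hC0 hC using fun j => hZ j r
  have hS0 : 0 ≤ ∑ j, C j := Finset.sum_nonneg fun j _ => hC0 j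
  refine ⟨3 * ∑ j, C j, ?_⟩
  intro L _ _ _ hr S x hx hxZ
  have hfin : (0 : ℝ) < Module.finrank k L := by exact_mod_cast Module.finrank_pos
  have hfin1 : (1 : ℝ) ≤ Module.finrank k L := by exact_mod_cast Module.finrank_pos (R := k) (M := L)
  set W : Finset (Pl L) := S.biUnion (above L) with hW
  have hdisj : (S : Set (Pl k)).PairwiseDisjoint (above L) := by
    intro a _ b _ hab
    rw [Function.onFun, Finset.disjoint_left]
    intro w hwa hwb
    exact hab (above_unique (mem_above.mp hwa) (mem_above.mp hwb))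
  have hcard : W.card = npl L S := by
    rw [hW, Finset.card_biUnion (fun a ha b hb hab => hdisj ha hb hab)]; rfl
  have hsum : ∑ ν ∈ S, lamD D ν x = ∑ j, (∑ w ∈ W, ∑ i, wloc w (D j i) (x j)) / Module.finrank k L := by
    unfold lamD
    rw [← Finset.sum_div, ← Finset.sum_div, hW, ← Finset.sum_biUnion hdisj, Finset.sum_comm]
  have hN0 : (0 : ℝ) ≤ npl L S := Nat.cast_nonneg _
  have hgen : lhs D S x ≤ ∑ j, (coef (n j) (npl L S) - (n j + 1)) * hgt k (x j)
      + (∑ j, C j) * (1 + npl L S) := by
    unfold lhs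
    rw [hsum, Finset.sum_mul, ← Finset.sum_neg_distrib, ← Finset.sum_add_distrib, ← Finset.sum_add_distrib]
    refine Finset.sum_le_sum fun j _ => ?_
    have h1 := hC j L hr (x j) (hx j) (hxZ j) W
    rw [hcard] at h1
    have h2 : (∑ w ∈ W, ∑ i, wloc w (D j i) (x j)) / Module.finrank k L
        ≤ (coef (n j) (npl L S) * Height.logHeight (x j) + C j * (1 + npl L S)) / Module.finrank k L :=
      div_le_div_of_nonneg_right h1 hfin.le
    have h3 : C j * (1 + npl L S) / Module.finrank k L ≤ C j * (1 + npl L S) :=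
      div_le_self (mul_nonneg (hC0 j) (by linarith)) hfin1
    rw [add_div] at h2
    have h4 : coef (n j) (npl L S) * Height.logHeight (x j) / Module.finrank k L
        = coef (n j) (npl L S) * hgt k (x j) := by
      unfold hgt; ring
    rw [h4] at h2
    linarith
  have hh0 : ∀ j, 0 ≤ hgt k (x j) := fun j => div_nonneg (Height.logHeight_nonneg _) hfin.le
  have hdk : 0 ≤ dk k L := logDisc_nonneg
  have hpl : Module.finrank k L * S.card ≤ 2 ∨ npl L S ≤ 2 → npl L S ≤ 2 := by
    intro hN
    rcases hN with h | h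
    · refine le_trans ?_ h
      unfold npl
      calc ∑ ν ∈ S, (above L ν).card ≤ ∑ ν ∈ S, Module.finrank k L :=
            Finset.sum_le_sum fun ν _ => card_above_le ν
        _ = Module.finrank k L * S.card := by rw [Finset.sum_const, smul_eq_mul, mul_comm]
    · exact h
  have hmain : npl L S ≤ 2 → lhs D S x ≤ 3 * ∑ j, C j := by
    intro hN2
    refine hgen.trans ?_
    have h1 : ∑ j, (coef (n j) (npl L S) - (n j + 1)) * hgt k (x j) ≤ 0 := by
      refine Finset.sum_nonpos fun j _ => mul_nonpos_of_nonpos_of_nonneg ?_ (hh0 j)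
      have hnj : (0 : ℝ) ≤ n j := Nat.cast_nonneg _
      have : coef (n j) (npl L S) ≤ n j + 1 := by
        unfold coef
        interval_cases npl L S
        · simp; linarith
        · simp
        · simp
      linarith
    have h2 : ((npl L S : ℕ) : ℝ) ≤ 2 := by exact_mod_cast hN2
    nlinarith
  refine ⟨hgen.trans (by nlinarith), fun h => hmain (hpl h), ?_⟩
  intro hN ε A hε hA
  have h1 : 0 ≤ ε * ∑ j, A j * hgt k (x j) :=
    mul_nonneg hε (Finset.sum_nonneg fun j _ => mul_nonneg (hA j) (hh0 j))
  rcases Nat.lt_or_ge 2 (npl L S) with h2 | h2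
  · have h3 : ((npl L S : ℝ) / 2 - 1) * ∑ j, ((n j : ℝ) + 1) * hgt k (x j) ≤ dk k L := by
      rcases hN with h | h | h
      · exact absurd (hpl (Or.inl h)) (by omega)
      · exact absurd h (by omega)
      · exact h
    have h4 : ∑ j, (coef (n j) (npl L S) - (n j + 1)) * hgt k (x j)
        = ((npl L S : ℝ) / 2 - 1) * ∑ j, ((n j : ℝ) + 1) * hgt k (x j) := by
      rw [Finset.mul_sum]
      refine Finset.sum_congr rfl fun j _ => ?_
      unfold coef
      rw [if_neg (by omega)]
      ring
    rw [h4] at hgen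
    nlinarith
  · have h3 := hmain h2
    have h4 : 0 ≤ (∑ j, C j) * npl L S := mul_nonneg hS0 hN0
    nlinarith

end Pool.Agent.Results.MP_71c16a_nt.TwoPlaces
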